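import Pool.Agent.R280.PTrace

/-!
# Absolute `p`-extendability of the three-point space `{0, 1, 3}` (MP_d7144b_an, Q1: proved)

Let `N = {0, 1, 3} ⊆ ℝ`, a doubling space with `λ_N = 2` and `ae_1(N) = 1`. Put `M = N ∪ {i/(m+1)}` and let
`f` map `0, 1, 3` to the vertices of a triangle in the plane with the largest `p`-norm for which the
edges have norm at most one. In this `p`-norm a vector of norm at most `B` has a barycentric
coordinate of modulus at most `2 B 2^{-1/p}`. So for small `p` an extension of `f` with bounded Lipschitz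
constant maps the points `i/(m+1)` close to the vertices, and has a jump of norm almost one between
two neighbours. Hence `ae_p(N) ≥ (m+1)(1 - 24(m+1)2^{-1/p})` and `ae_p(N) → ∞` as `p → 0`.
-/

set_option autoImplicit false

open Set Topology Filter Pool.Agent.R280.PTrace
open scoped ENNReal

namespace Pool.Agent.Results.MP_d7144b_an.QuotientUnbounded

/-- `λ_A ≤ n`: every closed ball of radius `2 r > 0` in `A` is covered by `n` closed balls of radius
`r`. -/
def IsDoublingWith (n : ℕ) (A : Type) [MetricSpace A] : Prop :=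
  ∀ (x : A) (r : ℝ), 0 < r → ∃ c : Fin n → A,
    Metric.closedBall x (2 * r) ⊆ ⋃ i, Metric.closedBall (c i) r

/-- the space `{0, 1, 3}` -/
def N3 : Type := {x : ℝ // x = 0 ∨ x = 1 ∨ x = 3}

noncomputable instance : MetricSpace N3 :=
  inferInstanceAs (MetricSpace {x : ℝ // x = 0 ∨ x = 1 ∨ x = 3})

/-- the point `0` -/
def p0 : N3 := ⟨0, Or.inl rfl⟩
/-- the point `1` -/
def p1 : N3 := ⟨1, Or.inr (Or.inl rfl)⟩
/-- the point `3` -/
def p3 : N3 := ⟨3, Or.inr (Or.inr rfl)⟩

lemma cases_N3 (x : N3) : x = p0 ∨ x = p1 ∨ x = p3 := by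
  obtain ⟨x, hx⟩ := x
  rcases hx with rfl | rfl | rfl
  · exact Or.inl rfl
  · exact Or.inr (Or.inl rfl)
  · exact Or.inr (Or.inr rfl)

lemma dist_N3 (x y : N3) : dist x y = |x.1 - y.1| := rfl

/-- the inclusion -/
noncomputable def inc (m : ℕ) (x : N3) : pts m :=
  ⟨x.1, by
    rcases x.2 with h | h | h
    · exact Or.inl ⟨0, Nat.zero_le _, by rw [h]; simp⟩
    · refine Or.inl ⟨m + 1, le_rfl, ?_⟩
      rw [h]
      push_cast
      exact (div_self (by positivity)).symm
    · exact Or.inr h⟩

lemma inc_isometry (m : ℕ) : Isometry (inc m) := Isometry.of_dist_eq fun _ _ => rfl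

lemma range_inc (m : ℕ) : Set.range (inc m) = A3 m := by
  ext x
  constructor
  · rintro ⟨y, rfl⟩
    exact y.2
  · intro hx
    exact ⟨⟨x.1, hx⟩, rfl⟩

lemma le_ae {p : ℝ} (hp0 : 0 < p) (hp1 : p ≤ 1) (m : ℕ) :
    ENNReal.ofReal (((m : ℝ) + 1) * (1 - 24 * ((m : ℝ) + 1) / 2 ^ (1 / p))) ≤
      ae.{0, 0} p N3 := by
  refine (le_trace hp0 hp1 m).trans ?_
  refine le_sSup ⟨pts m, inferInstance, inc m, inc_isometry m, ?_⟩
  rw [range_inc]

theorem tendsto_ae : Tendsto (fun p : ℝ => ae.{0, 0} p N3) (𝓝[>] 0) (𝓝 ∞) := by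
  rw [ENNReal.tendsto_nhds_top_iff_nat]
  intro n
  have h1 := tendsto_bound n
  have h2 : (n : ℝ≥0∞) < ENNReal.ofReal ((n : ℝ) + 1) := by
    rw [← ENNReal.ofReal_natCast]
    exact (ENNReal.ofReal_lt_ofReal_iff (by positivity)).2 (by linarith)
  have h3 : ∀ᶠ p : ℝ in 𝓝[>] 0, p ≤ 1 := by
    have : Iic (1 : ℝ) ∈ 𝓝 (0 : ℝ) := Iic_mem_nhds zero_lt_one
    exact mem_nhdsWithin_of_mem_nhds this
  filter_upwards [h1.eventually_const_lt h2, self_mem_nhdsWithin, h3] with p hp hp0 hp1
  exact hp.trans_le (le_ae hp0 hp1 n)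

/-! ### The case `p = 1` -/

/-- clamping -/
noncomputable def cl (a b t : ℝ) : ℝ := max a (min b t)

lemma cl_mono {a b s t : ℝ} (h : s ≤ t) : cl a b s ≤ cl a b t :=
  max_le_max le_rfl (min_le_min le_rfl h)

lemma cl_sum (t : ℝ) : cl 0 1 t + cl 1 3 t = 1 + cl 0 3 t := by
  unfold cl
  rcases le_total t 0 with h | h
  · rw [min_eq_right (a := (1 : ℝ)) (b := t) (by linarith),
      min_eq_right (a := (3 : ℝ)) (b := t) (by linarith), max_eq_left h,
      max_eq_left (a := (1 : ℝ)) (b := t) (by linarith)]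
    ring
  · rcases le_total t 1 with h1 | h1
    · rw [min_eq_right h1, min_eq_right (a := (3 : ℝ)) (b := t) (by linarith),
        max_eq_right h, max_eq_left h1]
      ring
    · rcases le_total t 3 with h3 | h3
      · rw [min_eq_left h1, min_eq_right h3, max_eq_right (a := (0 : ℝ)) (b := 1) (by norm_num),
          max_eq_right h1, max_eq_right h]
      · rw [min_eq_left h1, min_eq_left h3, max_eq_right (a := (0 : ℝ)) (b := 1) (by norm_num),
          max_eq_right (a := (1 : ℝ)) (b := 3) (by norm_num),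
          max_eq_right (a := (0 : ℝ)) (b := 3) (by norm_num)]

lemma cl_lip {s t : ℝ} (h : s ≤ t) : cl 0 3 t - cl 0 3 s ≤ t - s := by
  unfold cl
  rcases le_total s 0 with h1 | h1
  · rw [min_eq_right (a := (3 : ℝ)) (b := s) (by linarith), max_eq_left h1]
    rcases le_total t 0 with h2 | h2
    · rw [min_eq_right (by linarith), max_eq_left h2]
      linarith
    · rw [max_eq_right (le_min (by norm_num) h2)]
      have := min_le_right (3 : ℝ) t
      linarith
  · rcases le_total s 3 with h2 | h2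
    · rw [min_eq_right (a := (3 : ℝ)) (b := s) h2, max_eq_right h1,
        max_eq_right (le_min (by norm_num) (by linarith))]
      have := min_le_right (3 : ℝ) t
      linarith
    · rw [min_eq_left h2, min_eq_left (by linarith)]
      linarith

theorem hasExt_one (M : Type) [MetricSpace M] (ι : N3 → M) (hι : Isometry ι) :
    HasExt.{0, 0} 1 (Set.range ι) 1 := by
  classical
  intro Z _ _ N hN f K hK hf
  -- the real-valued extension
  obtain ⟨u, hu, huι⟩ : ∃ u : M → ℝ, LipschitzWith 1 u ∧ ∀ x : N3, u (ι x) = x.1 := by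
    set v : M → ℝ := fun y => if h : ∃ x : N3, ι x = y then (Classical.choose h).1 else 0 with hv
    have hvι : ∀ x : N3, v (ι x) = x.1 := by
      intro x
      have hex : ∃ x' : N3, ι x' = ι x := ⟨x, rfl⟩
      have h1 : v (ι x) = (Classical.choose hex).1 := dif_pos hex
      rw [h1, hι.injective (Classical.choose_spec hex)]
    have hlip : LipschitzOnWith 1 v (Set.range ι) := by
      refine LipschitzOnWith.of_dist_le_mul ?_
      rintro _ ⟨x, rfl⟩ _ ⟨y, rfl⟩
      rw [hvι, hvι, hι.dist_eq, NNReal.coe_one, one_mul]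
      exact le_rfl
    obtain ⟨u, hu, huv⟩ := hlip.extend_real
    exact ⟨u, hu, fun x => by rw [← huv ⟨x, rfl⟩, hvι]⟩
  have hN1 : ∀ x y, N (x + y) ≤ N x + N y := by
    intro x y
    have := hN.add x y
    rwa [Real.rpow_one, Real.rpow_one, Real.rpow_one] at this
  have hN0 : N 0 = 0 := by
    have := hN.smul 0 0
    rwa [zero_smul, abs_zero, zero_mul] at this
  set a := f (ι p0) with ha
  set b := f (ι p1) with hb
  set c := f (ι p3) with hc
  have hab : N (b - a) ≤ K := by
    have h1 := hf (ι p1) ⟨p1, rfl⟩ (ι p0) ⟨p0, rfl⟩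
    rw [hι.dist_eq, dist_N3] at h1
    have h2 : |(p1.1 : ℝ) - p0.1| = 1 := by
      unfold p0 p1; norm_num
    rw [h2, mul_one] at h1
    exact h1
  have hbc : N (c - b) ≤ 2 * K := by
    have h1 := hf (ι p3) ⟨p3, rfl⟩ (ι p1) ⟨p1, rfl⟩
    rw [hι.dist_eq, dist_N3] at h1
    have h2 : |(p3.1 : ℝ) - p1.1| = 2 := by
      unfold p3 p1; norm_num
    rw [h2] at h1
    linarith
  set h : ℝ → Z := fun t => a + (cl 0 1 t • (b - a) + ((cl 1 3 t - 1) / 2) • (c - b)) with hh
  refine ⟨fun y => h (u y), ?_, ?_⟩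
  · rintro _ ⟨x, rfl⟩
    show h (u (ι x)) = f (ι x)
    rw [huι]
    rcases cases_N3 x with rfl | rfl | rfl
    · have e1 : cl 0 1 (p0.1) = 0 := by unfold p0 cl; norm_num
      have e2 : cl 1 3 (p0.1) = 1 := by unfold p0 cl; norm_num
      simp only [hh, e1, e2]
      simp [ha]
    · have e1 : cl 0 1 (p1.1) = 1 := by unfold p1 cl; norm_num
      have e2 : cl 1 3 (p1.1) = 1 := by unfold p1 cl; norm_num
      simp only [hh, e1, e2]
      simp [hb]
    · have e1 : cl 0 1 (p3.1) = 1 := by unfold p3 cl; norm_num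
      have e2 : cl 1 3 (p3.1) = 3 := by unfold p3 cl; norm_num
      simp only [hh, e1, e2]
      norm_num
      simp [hc]
  · have key : ∀ s t : ℝ, s ≤ t → N (h t - h s) ≤ K * (t - s) := by
      intro s t hst
      have e1 : h t - h s = (cl 0 1 t - cl 0 1 s) • (b - a) +
          ((cl 1 3 t - cl 1 3 s) / 2) • (c - b) := by
        simp only [hh]
        module
      rw [e1]
      refine (hN1 _ _).trans ?_
      rw [hN.smul, hN.smul, abs_of_nonneg (sub_nonneg.2 (cl_mono hst)),
        abs_of_nonneg (div_nonneg (sub_nonneg.2 (cl_mono hst)) (by norm_num))]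
      have h1 := mul_le_mul_of_nonneg_left hab (sub_nonneg.2 (cl_mono (a := 0) (b := 1) hst))
      have h2 := mul_le_mul_of_nonneg_left hbc
        (div_nonneg (sub_nonneg.2 (cl_mono (a := 1) (b := 3) hst)) (by norm_num : (0 : ℝ) ≤ 2))
      have h3 := cl_sum t
      have h4 := cl_sum s
      have h5 := cl_lip hst
      have h6 : (cl 0 1 t - cl 0 1 s) + (cl 1 3 t - cl 1 3 s) ≤ t - s := by linarith
      have h7 := mul_le_mul_of_nonneg_left h6 hK
      linarith
    intro x _ y _
    have hd : |u x - u y| ≤ dist x y := by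
      have := hu.dist_le_mul x y
      rwa [NNReal.coe_one, one_mul, Real.dist_eq] at this
    rw [one_mul]
    rcases le_total (u x) (u y) with hle | hle
    · have h1 := key _ _ hle
      have h2 : N (h (u x) - h (u y)) = N (h (u y) - h (u x)) := by
        have := hN.smul (-1) (h (u y) - h (u x))
        rw [neg_one_smul, neg_sub] at this
        rw [this]
        simp
      rw [h2]
      refine h1.trans (mul_le_mul_of_nonneg_left ?_ hK)
      rw [abs_sub_comm] at hd
      exact (le_abs_self _).trans hd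
    · refine (key _ _ hle).trans (mul_le_mul_of_nonneg_left ?_ hK)
      exact (le_abs_self _).trans hd

theorem ae_one_le : ae.{0, 0} 1 N3 ≤ 1 := by
  refine sSup_le ?_
  rintro _ ⟨M, _, ι, hι, rfl⟩
  refine sInf_le ⟨1, one_pos, hasExt_one M ι hι, ?_⟩
  rw [ENNReal.ofReal_one]

lemma isDoubling {n : ℕ} (hn : 2 ≤ n) : IsDoublingWith n N3 := by
  intro x r hr
  obtain ⟨a, b, hab⟩ : ∃ a b : N3, ∀ y : N3, dist y x ≤ 2 * r → dist y a ≤ r ∨ dist y b ≤ r := by
    by_cases h1 : 1 ≤ r
    · refine ⟨p0, p3, fun y _ => ?_⟩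
      rcases cases_N3 y with rfl | rfl | rfl
      · left; rw [dist_self]; exact hr.le
      · left
        rw [dist_N3]
        unfold p0 p1
        norm_num
        exact h1
      · right; rw [dist_self]; exact hr.le
    · push Not at h1
      rcases cases_N3 x with rfl | rfl | rfl
      · refine ⟨p0, p1, fun y hy => ?_⟩
        rcases cases_N3 y with rfl | rfl | rfl
        · left; rw [dist_self]; exact hr.le
        · right; rw [dist_self]; exact hr.le
        · exfalso
          rw [dist_N3] at hy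
          unfold p0 p3 at hy
          norm_num at hy
          linarith
      · refine ⟨p0, p1, fun y hy => ?_⟩
        rcases cases_N3 y with rfl | rfl | rfl
        · left; rw [dist_self]; exact hr.le
        · right; rw [dist_self]; exact hr.le
        · exfalso
          rw [dist_N3] at hy
          unfold p1 p3 at hy
          norm_num at hy
          linarith
      · refine ⟨p3, p3, fun y hy => ?_⟩
        rcases cases_N3 y with rfl | rfl | rfl
        · exfalso
          rw [dist_N3] at hy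
          unfold p0 p3 at hy
          norm_num at hy
          linarith
        · exfalso
          rw [dist_N3] at hy
          unfold p1 p3 at hy
          norm_num at hy
          linarith
        · left; rw [dist_self]; exact hr.le
  refine ⟨fun i => if (i : ℕ) = 0 then a else b, fun y hy => ?_⟩
  rcases hab y hy with h | h
  · exact mem_iUnion.2 ⟨⟨0, by omega⟩, by simpa using h⟩
  · exact mem_iUnion.2 ⟨⟨1, by omega⟩, by simpa using h⟩

/-- For every `n ≥ 2` the supremum of the limits `lim_{p → 0} ae_p(A) / ae_1(A)` over the doubling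
metric spaces `A` with `λ_A ≤ n` is infinite. In fact one such space `A` has
`ae_p(A) / ae_1(A) → ∞` as `p → 0`. -/
theorem result (n : ℕ) (hn : 2 ≤ n) :
    (∃ (A : Type) (_ : MetricSpace A), Nonempty A ∧ Finite A ∧ IsDoublingWith n A ∧
      ae.{0, 0} 1 A < ∞ ∧
      Tendsto (fun p : ℝ => ae.{0, 0} p A / ae.{0, 0} 1 A) (𝓝[>] 0) (𝓝 ∞)) ∧
    sSup {L : ℝ≥0∞ | ∃ (A : Type) (_ : MetricSpace A), Nonempty A ∧ IsDoublingWith n A ∧
      ae.{0, 0} 1 A < ∞ ∧
      Tendsto (fun p : ℝ => ae.{0, 0} p A / ae.{0, 0} 1 A) (𝓝[>] 0) (𝓝 L)} = ∞ := by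
  have h1 : ae.{0, 0} 1 N3 < ∞ := ae_one_le.trans_lt ENNReal.one_lt_top
  have h2 : Tendsto (fun p : ℝ => ae.{0, 0} p N3 / ae.{0, 0} 1 N3) (𝓝[>] 0) (𝓝 ∞) := by
    refine tendsto_nhds_top_mono tendsto_ae (Eventually.of_forall fun p => ?_)
    calc ae.{0, 0} p N3 = ae.{0, 0} p N3 / 1 := (div_one _).symm
      _ ≤ ae.{0, 0} p N3 / ae.{0, 0} 1 N3 := ENNReal.div_le_div_left ae_one_le _
  have h3 : Finite N3 := by
    refine Set.Finite.subset (s := ({0, 1, 3} : Set ℝ)) (by simp) ?_
    intro x hx
    rcases hx with h | h | h <;> simp [h]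
  refine ⟨⟨N3, inferInstance, ⟨p0⟩, h3, isDoubling hn, h1, h2⟩, ?_⟩
  refine le_antisymm le_top (le_sSup ⟨N3, inferInstance, ⟨p0⟩, isDoubling hn, h1, h2⟩)

end Pool.Agent.Results.MP_d7144b_an.QuotientUnbounded
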